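import Pool.Agent.Lib.MP_b5021c_nt.IfaceAM

/-!
# Row AM_MIN: reduction to minimal support
-/

namespace Pool.Agent.B5.H88.AM

open scoped LaurentPolynomial
open Pool.Agent.B5

/-- The support of the restriction has at most as many elements. -/
theorem ncard_res {O : Type} [CommRing O] {L : Type} [AddCommGroup L] (D : AO O L)
    (K : Submodule ℤ L) : (supp (res K D)).ncard ≤ (supp D).ncard := by
  have hfin : (supp D).Finite := by
    refine D.coeff.support.finite_toSet.subset fun a ha => ?_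
    exact Finsupp.mem_support_iff.mpr ha
  refine Set.ncard_le_ncard_of_injOn (fun a : K => (a : L)) ?_ ?_ hfin
  · intro a ha
    exact ha
  · intro a _ b _ h
    exact Subtype.ext h

/-- (AM_MIN) -/
theorem min_st (hC : CplS) (hS : SymLS) (hL : LatResS) (hF : FptS) : MinSS := by
  classical
  intro O _ _ _ _ P L _ _ _ _ _ phi D θ hD hd hcl
  set Q : ℕ → Prop := fun n => ∃ (P' L' : Type) (_ : Fintype P') (_ : DecidableEq P')
    (_ : AddCommGroup L') (_ : Module.Free ℤ L') (_ : Module.Finite ℤ L')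
    (phi' : L' →+ (P' → ℤ)) (D' : AO O L'), DD phi' D' ∧
      Module.finrank ℤ L' = Module.finrank ℤ L ∧ ClassP θ (D'.coeff 0) ∧
      (supp D').ncard = n with hQ
  have hex : ∃ n, Q n := ⟨_, P, L, inferInstance, inferInstance, inferInstance, inferInstance,
    inferInstance, phi, D, hD, rfl, hcl, rfl⟩
  obtain ⟨P', L', i1, i2, i3, i4, i5, phi', D', hD', hr', hcl', hn'⟩ := Nat.find_spec hex
  have hd' : 2 ≤ Module.finrank ℤ L' := by rw [hr']; exact hd
  have hfac : ∀ lam : L' →+ ℤ, FacF (supp D') lam → ∃ m : ℤ, TwoL (supp D') lam m := by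
    intro lam hlam
    obtain ⟨P'', L'', j1, j2, j3, j4, j5, phi'', D'', hD'', hr'', hle'', hn''⟩ :=
      hC O P' L' phi' D' lam hD' hd' hlam (Or.inr ⟨θ, hcl'⟩)
    have hmin : Nat.find hex ≤ (supp D'').ncard :=
      Nat.find_min' hex ⟨P'', L'', j1, j2, j3, j4, j5, phi'', D'', hD'', hr''.trans hr',
        hle''.2 θ hcl', rfl⟩
    exact hS O P' L' phi' D' lam hD' hlam.1 hlam.2.1 (by rw [hn', ← hn'']; exact hmin)
  obtain ⟨P'', j1, j2, phi'', hFP⟩ := hF O P' L' phi' D' hD' hd' hfac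
  obtain ⟨h1, h2, h3', h4, h5, h6⟩ := hL O L' D' (Submodule.span ℤ (supp D')) rfl hD'.st.1
  have hrk : Module.finrank ℤ (Submodule.span ℤ (supp D')) = Module.finrank ℤ L := by
    rw [h6, hD'.spn, hr']
  refine ⟨P'', Submodule.span ℤ (supp D'), j1, j2, inferInstance, inferInstance, inferInstance,
    phi'', res (Submodule.span ℤ (supp D')) D', ⟨hFP, hcl', h4, ?_⟩, hrk⟩
  intro P3 L3 k1 k2 k3 k4 k5 phi3 D3 hD3 hr3 hcl3
  refine (ncard_res D' _).trans ?_
  rw [hn']
  exact Nat.find_min' hex ⟨P3, L3, k1, k2, k3, k4, k5, phi3, D3, hD3, hr3.trans hrk, hcl3, rfl⟩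

end Pool.Agent.B5.H88.AM
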